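import Pool.Agent.Lib.MP_926cc3_nt.PP.Main
import Pool.Agent.Lib.MP_926cc3_nt.PP.OME
import Pool.Agent.Lib.MP_926cc3_nt.PP.Size

set_option autoImplicit false

open Filter Topology MeasureTheory ProbabilityTheory

namespace Pool.Agent.Results.MP_926cc3_nt.DisplacedPrimes

open Pool.Agent.Lib.MP_926cc3_nt.RS Pool.Agent.Lib.MP_926cc3_nt.PP

universe u

/-- The elements of `S` whose `g` immediate predecessors are all greater than `1` and not in `S`;
`firstElt S g` is the least of them. -/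
def afterGap (S : Set ℕ) (g : ℕ) : Set ℕ :=
  {p : ℕ | p ∈ S ∧ ∀ i : ℕ, 1 ≤ i → i ≤ g → (1 < p - i ∧ p - i ∉ S)}

/-- Random displacement of the true primes.  `W` is Buchstab's function; `e^γ W t < 1` for
arbitrarily large `t`, and `e^γ W t < κ²` for some `t > 2` if `e^γ/2 < κ²`.  Let `2 ≤ A < t`, `κ > 0` and `e^γ W t < κ²`.  There is `B` such that for every
nondecreasing `h` with `B (log n)² ≤ h n ≤ (log n)^A` for all large `n` the following holds.  Let
`ξ n` be independent, uniformly distributed on `{0, …, h n - 1}` (such variables exist), and let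
`R = {p + ξ p : p prime}`.  Almost surely, for all large `g`, the first element `p_R(g)` of `R` after
a gap of length `g` exists and `log p_R(g) ≤ κ √g`, so if `κ < 1` Shanks' law fails for `R`, while
the product of `(1 - (p + ξ p)^(-s))⁻¹` over the primes `p` is `ζ(s) G(s)` with `G` analytic and
without zeros for `Re s > 0`. -/
theorem result : ∃ W : ℝ → ℝ, IsBuchstab W ∧
    (∀ A : ℝ, ∃ t : ℝ, A < t ∧ Real.exp Real.eulerMascheroniConstant * W t < 1) ∧
    (∀ κ : ℝ, Real.exp Real.eulerMascheroniConstant / 2 < κ ^ 2 →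
      ∃ t : ℝ, 2 < t ∧ Real.exp Real.eulerMascheroniConstant * W t < κ ^ 2) ∧
    ∀ A t κ : ℝ, 2 ≤ A → A < t → 0 < κ →
      Real.exp Real.eulerMascheroniConstant * W t < κ ^ 2 → ∃ B : ℝ,
      (∀ a : ℝ, 2 < a → a < A → Size B A (fun n : ℕ => ⌊Real.log n ^ a⌋₊ + 1)) ∧
      ∀ h : ℕ → ℕ, Size B A h →
        (∃ (Ω : Type) (_ : MeasurableSpace Ω) (μ : Measure Ω) (ξ : ℕ → Ω → ℕ),
          IsProbabilityMeasure μ ∧ iIndepFun ξ μ ∧ Uniform μ h ξ) ∧
        ∀ (Ω : Type u) (_ : MeasurableSpace Ω) (μ : Measure Ω) (_ : IsProbabilityMeasure μ)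
          (ξ : ℕ → Ω → ℕ), iIndepFun ξ μ → Uniform μ h ξ → ∀ᵐ ω ∂μ,
          (∀ᶠ g : ℕ in atTop, (afterGap (moved ξ ω) g).Nonempty ∧
            Real.log (firstElt (moved ξ ω) g) ≤ κ * Real.sqrt g) ∧
          (κ < 1 → ¬ ShanksLaw (moved ξ ω)) ∧
          ∃ G : ℂ → ℂ, AnalyticOnNhd ℂ G {s | 0 < s.re} ∧ (∀ s : ℂ, 0 < s.re → G s ≠ 0) ∧
            ∀ s : ℂ, 1 < s.re →
              HasProd (fun p : Nat.Primes => (1 - (((p : ℕ) + ξ p ω : ℕ) : ℂ) ^ (-s))⁻¹)
                (riemannZeta s * G s) := by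
  obtain ⟨g, hg⟩ := Pool.Agent.Lib.MP_926cc3_nt.TH.specDDE
  refine ⟨fun u => g (u - 1) / u, MainM.buchstab hg, fun A => ?_, fun κ hκ => ?_, ?_⟩
  · obtain ⟨t, h1, _, h2⟩ := ome hg A
    exact ⟨t, h1, h2⟩
  · have hc : ContinuousAt
        (fun u : ℝ => Real.exp Real.eulerMascheroniConstant * (g (u - 1) / u)) 2 := by
      apply ContinuousAt.mul continuousAt_const
      apply ContinuousAt.div
      · exact (hg.1.comp (continuous_id.sub continuous_const)).continuousAt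
      · exact continuousAt_id
      · norm_num
    have h2 : Real.exp Real.eulerMascheroniConstant * (g (2 - 1) / 2) < κ ^ 2 := by
      rw [ome_eq hg le_rfl]
      linarith
    have h3 : ∀ᶠ u : ℝ in 𝓝[>] 2,
        Real.exp Real.eulerMascheroniConstant * (g (u - 1) / u) < κ ^ 2 :=
      (hc.eventually (gt_mem_nhds h2)).filter_mono nhdsWithin_le_nhds
    obtain ⟨t, ht1, ht2⟩ := (h3.and self_mem_nhdsWithin).exists
    exact ⟨t, ht2, ht1⟩
  · intro A t κ hA hAt hκ hk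
    obtain ⟨B, _, hB⟩ := displaced.{u} hg hA hAt hκ hk
    refine ⟨B, fun a h2 haA => size_pow h2 haA, fun h hh => ⟨specEXI h hh.pos, ?_⟩⟩
    intro Ω m0 μ hμ ξ hind hunif
    filter_upwards [hB h hh.mono hh.low hh.up Ω m0 μ hμ ξ hind hunif,
      (specUNI Ω m0 μ hμ h ξ hunif).1] with ω h1 h2
    refine ⟨h1, fun h3 => MainM.not_shanks h3 (h1.mono (fun g hg => hg.2)), ?_⟩
    obtain ⟨z1, z2, z3⟩ := Pool.Agent.Lib.MP926cc3.PP.specZETA (fun p => ξ p ω)
      (Pool.Agent.Lib.MP926cc3.PP.subPower hh.up h2)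
    exact ⟨_, z1, z2, z3⟩

end Pool.Agent.Results.MP_926cc3_nt.DisplacedPrimes
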