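import Pool.Agent.Lib.MP_926cc3_nt.RS.Exist
import Pool.Agent.Lib.MP_926cc3_nt.XG.MainP

set_option autoImplicit false

open Filter Topology MeasureTheory ProbabilityTheory Asymptotics

namespace Pool.Agent.Results.MP_926cc3_nt.FirstOccurrence

open Pool.Agent.Lib.MP_926cc3_nt.RS Pool.Agent.Lib.MP_926cc3_nt.TH
  Pool.Agent.Lib.MP_926cc3_nt.XG

universe u

/-- The elements of `S` whose `g` immediate predecessors are all greater than `1` and not in `S`;
`firstElt S g` is the least of them. -/
def afterGap (S : Set ℕ) (g : ℕ) : Set ℕ :=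
  {p : ℕ | p ∈ S ∧ ∀ i : ℕ, 1 ≤ i → i ≤ g → (1 < p - i ∧ p - i ∉ S)}

/-- The exact logarithmic size of the first occurrences of gaps in the Cramér–Granville models of
level `w n = o(log n)`, and in all random sets with the same predictable density.
`cgDens w n` is `0` if `n` has a prime factor `< w n`, and `1/log n` divided by
`V (w n) = ∏_{p < w n} (1 - 1/p)` otherwise.  `sieveMin z g` is the least number of integers
without prime factor `< z` among `g` consecutive positive integers, and `crit w g` is the least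
`n ≥ 2` with `sieveMin (w n) g ≤ V (w n) (log n) ^ 2`; it exists and tends to infinity.
Let `R` be a random set of natural numbers adapted to a filtration, whose predictable density
`P(n ∈ R | ℱ (n - 1))` is almost surely asymptotically equivalent to `cgDens w n`.  Then almost
surely the first element `p(g)` of `R` after a gap of length `g` exists for all large `g`, and
`log p(g) ~ log (crit w g)`.  In particular this holds for the set of the `n` for which `B n`
occurs, for independent events with `P (B n) = cgDens w n` for all large `n`; such events exist. -/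
theorem result (w : ℕ → ℕ) (hm : Monotone w) (h2 : ∀ n, 2 ≤ w n)
    (hw : (fun n => (w n : ℝ)) =o[atTop] (fun n : ℕ => Real.log n)) :
    ((∀ g : ℕ, 2 ≤ crit w g ∧
        (sieveMin (w (crit w g)) g : ℝ) ≤ V (w (crit w g)) * Real.log (crit w g) ^ 2) ∧
      Tendsto (crit w) atTop atTop) ∧
    (∀ (Ω : Type u) (m0 : MeasurableSpace Ω) (μ : Measure Ω) [IsProbabilityMeasure μ]
      (ℱ : Filtration ℕ m0) (R : Ω → Set ℕ), (∀ n, MeasurableSet[ℱ n] {ω | n ∈ R ω}) →
      (∀ᵐ ω ∂μ, (fun n => predDensity μ ℱ R n ω) ~[atTop] cgDens w) →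
      ∀ᵐ ω ∂μ, (∀ᶠ g : ℕ in atTop, (afterGap (R ω) g).Nonempty) ∧
        (fun g : ℕ => Real.log (firstElt (R ω) g : ℝ)) ~[atTop]
          (fun g : ℕ => Real.log (crit w g : ℝ))) ∧
    (∃ (Ω : Type) (_ : MeasurableSpace Ω) (μ : Measure Ω) (B : ℕ → Set Ω),
      IsProbabilityMeasure μ ∧ (∀ n, MeasurableSet (B n)) ∧ iIndepSet B μ ∧
      ∀ᶠ n in atTop, μ.real (B n) = cgDens w n) ∧
    (∀ (Ω : Type u) [MeasurableSpace Ω] (μ : Measure Ω) [IsProbabilityMeasure μ]
      (B : ℕ → Set Ω), (∀ n, MeasurableSet (B n)) → iIndepSet B μ →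
      (∀ᶠ n in atTop, μ.real (B n) = cgDens w n) →
      ∀ᵐ ω ∂μ, (∀ᶠ g : ℕ in atTop, (afterGap {n | ω ∈ B n} g).Nonempty) ∧
        (fun g : ℕ => Real.log (firstElt {n | ω ∈ B n} g : ℝ)) ~[atTop]
          (fun g : ℕ => Real.log (crit w g : ℝ))) := by
  have hz : Tendsto (fun n => cgDens w n) atTop (𝓝 0) := All.hCGZ w h2 (log_lo h2 hw)
  refine ⟨⟨fun g => crit_spec h2 g, crit_tendsto hm h2⟩, ?_, ?_, ?_⟩
  · intro Ω m0 μ hμ ℱ R hR hd
    exact mainP hm h2 hw hR hd
  · obtain ⟨Ω, m0, μ, B, hμ, hB, hI, hp⟩ := Exist.events ℕ (fun n => max 0 (min 1 (cgDens w n)))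
      (fun n => le_max_left _ _) (fun n => max_le zero_le_one (min_le_left _ _))
    refine ⟨Ω, m0, μ, B, hμ, hB, hI, ?_⟩
    filter_upwards [hz.eventually (gt_mem_nhds one_pos)] with n h5
    rw [hp, min_eq_right h5.le, max_eq_right (UPHM.cg_nonneg h2 n)]
  · intro Ω m0 μ hμ B hB hI hd
    exact main hm h2 hw Ω m0 μ hμ B hB hI hd

end Pool.Agent.Results.MP_926cc3_nt.FirstOccurrence
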