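import Pool.Agent.Lib.MP_926cc3_nt.PP.Main
import Pool.Agent.Lib.MP_926cc3_nt.RS.Exist

set_option autoImplicit false

open Filter Topology MeasureTheory ProbabilityTheory

namespace Pool.Agent.Results.MP_926cc3_nt.ThinnedPrimes

open Pool.Agent.Lib.MP_926cc3_nt.RS Pool.Agent.Lib.MP_926cc3_nt.PP

universe u

/-- The elements of `S` whose `g` immediate predecessors are all greater than `1` and not in `S`;
`firstElt S g` is the least of them. -/
def afterGap (S : Set ℕ) (g : ℕ) : Set ℕ :=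
  {p : ℕ | p ∈ S ∧ ∀ i : ℕ, 1 ≤ i → i ≤ g → (1 < p - i ∧ p - i ∉ S)}

/-- Random thinning of the true primes.  Let `0 < δ < 1`, and let every prime be kept with
probability `δ`, independently.  Almost surely, for every `κ > (e^γ/2)^(1/2)` and all large `g`,
the first element `p_R(g)` of the set `R` of the primes that are kept after a gap of length `g`
exists and `log p_R(g) ≤ κ (|log (1-δ)| g)^(1/2)`.  In particular, if `e^γ/2 |log (1-δ)| < δ`, there
is `c < 1` with `log p_R(g) ≤ c (δ g)^(1/2)` almost surely for all large `g`: the law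
`log p_R(g) ~ (δ g)^(1/2)` of Cramér's model of density `δ / log n` fails for `R`. -/
theorem result (δ : ℝ) (hδ0 : 0 < δ) (hδ1 : δ < 1) :
    (∃ (Ω : Type) (_ : MeasurableSpace Ω) (μ : Measure Ω) (K : ℕ → Set Ω),
      IsProbabilityMeasure μ ∧ (∀ n, MeasurableSet (K n)) ∧ iIndepSet K μ ∧
        ∀ p : ℕ, p.Prime → μ.real (K p) = δ) ∧
    ∀ (Ω : Type u) (_ : MeasurableSpace Ω) (μ : Measure Ω) (_ : IsProbabilityMeasure μ)
      (K : ℕ → Set Ω), (∀ n, MeasurableSet (K n)) → iIndepSet K μ →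
      (∀ p : ℕ, p.Prime → μ.real (K p) = δ) →
      (∀ᵐ ω ∂μ, ∀ κ : ℝ, 0 < κ → Real.exp Real.eulerMascheroniConstant / 2 < κ ^ 2 →
        ∀ᶠ g : ℕ in atTop, (afterGap (kept K ω) g).Nonempty ∧
          Real.log (firstElt (kept K ω) g) ≤ κ * Real.sqrt (|Real.log (1 - δ)| * g)) ∧
      (Real.exp Real.eulerMascheroniConstant / 2 * |Real.log (1 - δ)| < δ →
        ∃ c : ℝ, 0 < c ∧ c < 1 ∧ ∀ᵐ ω ∂μ, ∀ᶠ g : ℕ in atTop,
          Real.log (firstElt (kept K ω) g) ≤ c * Real.sqrt (δ * g)) := by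
  have hl : Real.log (1 - δ) < 0 := Real.log_neg (by linarith) (by linarith)
  have habs : |Real.log (1 - δ)| = -Real.log (1 - δ) := abs_of_neg hl
  refine ⟨?_, ?_⟩
  · obtain ⟨Ω, m0, μ, B, hμ, hB, hI, hp⟩ := Exist.events ℕ (fun _ => δ) (fun _ => hδ0.le)
      (fun _ => hδ1.le)
    exact ⟨Ω, m0, μ, B, hμ, hB, hI, fun p _ => hp p⟩
  · intro Ω m0 μ hμ K hK hI hp
    have hone : ∀ κ : ℝ, 0 < κ → Real.exp Real.eulerMascheroniConstant / 2 < κ ^ 2 →
        ∀ᵐ ω ∂μ, ∀ᶠ g : ℕ in atTop, (afterGap (kept K ω) g).Nonempty ∧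
          Real.log (firstElt (kept K ω) g) ≤ κ * Real.sqrt (|Real.log (1 - δ)| * g) := by
      intro κ hκ hk
      rw [habs]
      exact thinned hκ hk hδ0 hδ1 Ω m0 μ hμ K hK hI hp
    refine ⟨?_, fun hc => ?_⟩
    · -- all `κ` at once: the rational ones are enough
      have hall : ∀ᵐ ω ∂μ, ∀ q : ℚ, 0 < (q : ℝ) →
          Real.exp Real.eulerMascheroniConstant / 2 < (q : ℝ) ^ 2 →
          ∀ᶠ g : ℕ in atTop, (afterGap (kept K ω) g).Nonempty ∧
            Real.log (firstElt (kept K ω) g) ≤ q * Real.sqrt (|Real.log (1 - δ)| * g) := by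
        rw [ae_all_iff]
        intro q
        by_cases h1 : 0 < (q : ℝ)
        · by_cases h2 : Real.exp Real.eulerMascheroniConstant / 2 < (q : ℝ) ^ 2
          · filter_upwards [hone q h1 h2] with ω hω _ _ using hω
          · exact Filter.Eventually.of_forall (fun ω _ h3 => absurd h3 h2)
        · exact Filter.Eventually.of_forall (fun ω h3 => absurd h3 h1)
      filter_upwards [hall] with ω hω κ hκ hk
      have hs : Real.sqrt (Real.exp Real.eulerMascheroniConstant / 2) < κ := by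
        rw [Real.sqrt_lt' hκ]
        exact hk
      obtain ⟨q, hq1, hq2⟩ := exists_rat_btwn hs
      have hs0 : 0 ≤ Real.sqrt (Real.exp Real.eulerMascheroniConstant / 2) := Real.sqrt_nonneg _
      have hq0 : 0 < (q : ℝ) := lt_of_le_of_lt hs0 hq1
      have hq3 : Real.exp Real.eulerMascheroniConstant / 2 < (q : ℝ) ^ 2 := by
        rwa [Real.sqrt_lt' hq0] at hq1
      filter_upwards [hω q hq0 hq3] with g hg
      exact ⟨hg.1, hg.2.trans (mul_le_mul_of_nonneg_right hq2.le (Real.sqrt_nonneg _))⟩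
    · set E : ℝ := Real.exp Real.eulerMascheroniConstant / 2 with hE
      have hE0 : 0 < E := by positivity
      set ℓ : ℝ := |Real.log (1 - δ)| with hℓ
      have hℓ0 : 0 < ℓ := by rw [habs]; linarith
      -- `E < κ² < δ / ℓ`
      set v : ℝ := (E + δ / ℓ) / 2 with hv
      have h1 : E < δ / ℓ := by rw [lt_div_iff₀ hℓ0]; exact hc
      have h2 : E < v := by rw [hv]; linarith
      have h3 : v < δ / ℓ := by rw [hv]; linarith
      have hv0 : 0 < v := hE0.trans h2
      have h4 : v * ℓ / δ < 1 := by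
        rw [div_lt_one hδ0]
        rwa [lt_div_iff₀ hℓ0] at h3
      refine ⟨Real.sqrt (v * ℓ / δ), Real.sqrt_pos.2 (by positivity), ?_, ?_⟩
      · rw [Real.sqrt_lt' one_pos, one_pow]
        exact h4
      · filter_upwards [hone (Real.sqrt v) (Real.sqrt_pos.2 hv0) (by
          rw [Real.sq_sqrt hv0.le]; exact h2)] with ω hω
        filter_upwards [hω] with g hg
        refine hg.2.trans (le_of_eq ?_)
        rw [← Real.sqrt_mul hv0.le, ← Real.sqrt_mul (by positivity)]
        congr 1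
        field_simp

end Pool.Agent.Results.MP_926cc3_nt.ThinnedPrimes
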