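import Pool.Agent.Lib.MP_926cc3_nt.RS.Exist
import Pool.Agent.Lib.MP_926cc3_nt.T2.Main

set_option autoImplicit false

open Filter Topology MeasureTheory ProbabilityTheory

namespace Pool.Agent.Results.MP_926cc3_nt.Threshold

open Pool.Agent.Lib.MP_926cc3_nt.RS Pool.Agent.Lib.MP_926cc3_nt.TH Pool.Agent.Lib.MP_926cc3_nt.T2

universe u

/-- The elements of `S` whose `g` immediate predecessors are all greater than `1` and not in `S`;
`firstElt S g` is the least of them. -/
def afterGap (S : Set ℕ) (g : ℕ) : Set ℕ :=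
  {p : ℕ | p ∈ S ∧ ∀ i : ℕ, 1 ≤ i → i ≤ g → (1 < p - i ∧ p - i ∉ S)}

/-- `log p(g) / √g` -/
noncomputable def ratio (S : Set ℕ) (g : ℕ) : EReal :=
  ((Real.log (firstElt S g) / Real.sqrt g : ℝ) : EReal)

/-- `log w(n) / log log n` -/
noncomputable def level (w : ℕ → ℕ) (n : ℕ) : EReal :=
  ((Real.log (w n) / Real.log (Real.log n) : ℝ) : EReal)

theorem loglog_pos : ∀ᶠ n : ℕ in atTop, 0 < Real.log (Real.log (n : ℝ)) :=
  ((Real.tendsto_log_atTop.comp Real.tendsto_log_atTop).comp
    tendsto_natCast_atTop_atTop).eventually_gt_atTop 0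

theorem level_nonneg (w : ℕ → ℕ) (h2 : ∀ n, 2 ≤ w n) : ∀ᶠ n in atTop, 0 ≤ level w n := by
  filter_upwards [loglog_pos] with n hn
  have h3 : (2 : ℝ) ≤ w n := by exact_mod_cast h2 n
  unfold level
  exact_mod_cast div_nonneg (Real.log_nonneg (by linarith)) hn.le

theorem below_of_limsup {w : ℕ → ℕ} (h2 : ∀ n, 2 ≤ w n) (h : limsup (level w) atTop = 0) :
    (fun n => Real.log (w n)) =o[atTop] (fun n : ℕ => Real.log (Real.log n)) := by
  rw [Asymptotics.isLittleO_iff]
  intro c hc
  have h1 : limsup (level w) atTop < ((c : ℝ) : EReal) := by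
    rw [h]; exact_mod_cast hc
  filter_upwards [eventually_lt_of_limsup_lt h1, loglog_pos] with n hn hn1
  have h3 : (2 : ℝ) ≤ w n := by exact_mod_cast h2 n
  rw [Real.norm_eq_abs, Real.norm_eq_abs, abs_of_nonneg (Real.log_nonneg (by linarith)),
    abs_of_pos hn1]
  unfold level at hn
  have h4 : Real.log (w n) / Real.log (Real.log n) < c := by exact_mod_cast hn
  rw [div_lt_iff₀ hn1] at h4
  exact h4.le

theorem limsup_of_below {w : ℕ → ℕ}
    (h : (fun n => Real.log (w n)) =o[atTop] (fun n : ℕ => Real.log (Real.log n))) :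
    limsup (level w) atTop = 0 := by
  have h1 := h.tendsto_div_nhds_zero
  have h3 : Tendsto (level w) atTop (𝓝 ((0 : ℝ) : EReal)) :=
    (continuous_coe_real_ereal.tendsto 0).comp h1
  exact h3.limsup_eq

theorem above_of_liminf {w : ℕ → ℕ} (h2 : ∀ n, 2 ≤ w n) (h : 0 < liminf (level w) atTop) :
    ∃ δ : ℝ, 0 < δ ∧ ∀ᶠ n : ℕ in atTop, Real.log (n : ℝ) ^ δ ≤ w n := by
  obtain ⟨δ, h0, h1⟩ := EReal.lt_iff_exists_real_btwn.1 h
  refine ⟨δ, by exact_mod_cast h0, ?_⟩
  filter_upwards [eventually_lt_of_lt_liminf h1, loglog_pos, eventually_ge_atTop 2]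
    with n hn hn1 hn2
  have h3 : (2 : ℝ) ≤ w n := by exact_mod_cast h2 n
  have hn2' : (2 : ℝ) ≤ n := by exact_mod_cast hn2
  have hl : 0 < Real.log (n : ℝ) := Real.log_pos (by linarith)
  unfold level at hn
  have h4 : δ < Real.log (w n) / Real.log (Real.log n) := by exact_mod_cast hn
  rw [lt_div_iff₀ hn1] at h4
  rw [← Real.log_le_log_iff (by positivity) (by linarith), Real.log_rpow hl]
  exact h4.le

theorem liminf_of_above {w : ℕ → ℕ}
    (h : ∃ δ : ℝ, 0 < δ ∧ ∀ᶠ n : ℕ in atTop, Real.log (n : ℝ) ^ δ ≤ w n) :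
    0 < liminf (level w) atTop := by
  obtain ⟨δ, hδ, h⟩ := h
  have h1 : ((δ : ℝ) : EReal) ≤ liminf (level w) atTop := by
    apply le_liminf_of_le
    · isBoundedDefault
    filter_upwards [h, loglog_pos, eventually_ge_atTop 2] with n hn hn1 hn2
    have hn2' : (2 : ℝ) ≤ n := by exact_mod_cast hn2
    have hl : 0 < Real.log (n : ℝ) := Real.log_pos (by linarith)
    have h4 : δ * Real.log (Real.log n) ≤ Real.log (w n) := by
      rw [← Real.log_rpow hl]
      exact Real.log_le_log (by positivity) hn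
    unfold level
    have h5 : δ ≤ Real.log (w n) / Real.log (Real.log n) := by
      rw [le_div_iff₀ hn1]; exact h4
    exact_mod_cast h5
  exact lt_of_lt_of_le (by exact_mod_cast hδ) h1

/-- The exact behaviour of Shanks' law in the Cramér–Granville models.
Let `w` be nondecreasing with values `≥ 2` and `log (w n) = o(log n)`.  In the model of level `w`
the integers `n` with a prime factor `< w n` are excluded and the others are chosen independently
with probability `1/log n` divided by `∏_{p < w n} (1 - 1/p)` (for all large `n`).  Such independent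
events exist, and there is `c < 1`, depending only on `w`, such that for all such events, almost
surely `p(g)` exists for all large `g` and, with `level w n = log w(n) / log log n`:
* if `limsup level = 0`, Shanks' law `log p(g) ~ √g` holds;
* if `limsup level > 0`, then `liminf log p(g) / √g ≤ c`;
* if `liminf level = 0`, then `limsup log p(g) / √g = 1`;
* if `liminf level > 0`, then `limsup log p(g) / √g ≤ c`. -/
theorem result (w : ℕ → ℕ) (hm : Monotone w) (h2 : ∀ n, 2 ≤ w n)
    (hw : (fun n => Real.log (w n)) =o[atTop] (fun n : ℕ => Real.log n)) :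
    (∃ (Ω : Type) (_ : MeasurableSpace Ω) (μ : Measure Ω) (B : ℕ → Set Ω),
      IsProbabilityMeasure μ ∧ (∀ n, MeasurableSet (B n)) ∧ iIndepSet B μ ∧
      ∀ᶠ n in atTop, μ.real (B n) = cgDens w n) ∧
    ∃ c : ℝ, 0 < c ∧ c < 1 ∧
      ∀ (Ω : Type u) [MeasurableSpace Ω] (μ : Measure Ω) [IsProbabilityMeasure μ]
      (B : ℕ → Set Ω), (∀ n, MeasurableSet (B n)) → iIndepSet B μ →
      (∀ᶠ n in atTop, μ.real (B n) = cgDens w n) →
      ∀ᵐ ω ∂μ, (∀ᶠ g : ℕ in atTop, (afterGap {n | ω ∈ B n} g).Nonempty) ∧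
        (limsup (level w) atTop = 0 → ShanksLaw {n | ω ∈ B n}) ∧
        (0 < limsup (level w) atTop → liminf (ratio {n | ω ∈ B n}) atTop ≤ (c : EReal)) ∧
        (liminf (level w) atTop = 0 → limsup (ratio {n | ω ∈ B n}) atTop = 1) ∧
        (0 < liminf (level w) atTop → limsup (ratio {n | ω ∈ B n}) atTop ≤ (c : EReal)) := by
  have hz : Tendsto (fun n => cgDens w n) atTop (𝓝 0) := All.hCGZ w h2 hw
  refine ⟨?_, ?_⟩
  · obtain ⟨Ω, m0, μ, B, hμ, hB, hI, hp⟩ := Exist.events ℕ (fun n => max 0 (min 1 (cgDens w n)))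
      (fun n => le_max_left _ _) (fun n => max_le zero_le_one (min_le_left _ _))
    refine ⟨Ω, m0, μ, B, hμ, hB, hI, ?_⟩
    filter_upwards [hz.eventually (gt_mem_nhds one_pos)] with n h5
    rw [hp, min_eq_right h5.le, max_eq_right (UPHM.cg_nonneg h2 n)]
  · obtain ⟨c, hc0, hc1, h⟩ := main.{u} w hm h2 hw
    refine ⟨c, hc0, hc1, ?_⟩
    intro Ω m0 μ hμ B hB hI hd
    filter_upwards [h Ω μ B hB hI hd] with ω hω
    obtain ⟨k1, k2, k3, k4, k5, k6⟩ := hω
    have hpos : ∀ᶠ g : ℕ in atTop, 0 < Real.sqrt (g : ℝ) :=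
      (Real.tendsto_sqrt_atTop.comp tendsto_natCast_atTop_atTop).eventually_gt_atTop 0
    -- upper bounds for the ratio
    have hle : ∀ c' : ℝ, (∀ᶠ g : ℕ in atTop, Real.log (firstElt {n | ω ∈ B n} g) ≤
        c' * Real.sqrt g) → limsup (ratio {n | ω ∈ B n}) atTop ≤ (c' : EReal) := by
      intro c' hc'
      apply limsup_le_of_le
      · isBoundedDefault
      filter_upwards [hc', hpos] with g hg hg1
      unfold ratio
      have : Real.log (firstElt {n | ω ∈ B n} g) / Real.sqrt g ≤ c' := by
        rw [div_le_iff₀ hg1]; exact hg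
      exact_mod_cast this
    refine ⟨k1, fun h3 => k3.2 (below_of_limsup h2 h3), fun h3 => ?_, fun h3 => ?_, fun h3 => ?_⟩
    · have h4 := k4 (fun hb => by rw [limsup_of_below hb] at h3; exact lt_irrefl _ h3)
      apply liminf_le_of_frequently_le
      · refine (h4.and_eventually hpos).mono ?_
        rintro g ⟨hg, hg1⟩
        unfold ratio
        have : Real.log (firstElt {n | ω ∈ B n} g) / Real.sqrt g ≤ c := by
          rw [div_le_iff₀ hg1]; exact hg
        exact_mod_cast this
      · isBoundedDefault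
    · have h4 := k6 (fun hb => by
        have := liminf_of_above hb
        rw [h3] at this
        exact lt_irrefl _ this)
      apply le_antisymm
      · apply le_of_forall_gt_imp_ge_of_dense
        intro y hy
        obtain ⟨c', h5, h6⟩ := EReal.lt_iff_exists_real_btwn.1 hy
        have h7 : (1 : ℝ) < c' := by exact_mod_cast h5
        refine (hle c' ?_).trans h6.le
        filter_upwards [k2 (c' - 1) (by linarith)] with g hg
        rw [add_sub_cancel] at hg
        exact hg
      · apply le_of_forall_lt_imp_le_of_dense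
        intro y hy
        obtain ⟨c', h5, h6⟩ := EReal.lt_iff_exists_real_btwn.1 hy
        have h7 : c' < (1 : ℝ) := by exact_mod_cast h6
        refine h5.le.trans ?_
        apply le_limsup_of_frequently_le
        · refine ((h4 c' h7).and_eventually hpos).mono ?_
          rintro g ⟨hg, hg1⟩
          unfold ratio
          have : c' ≤ Real.log (firstElt {n | ω ∈ B n} g) / Real.sqrt g := by
            rw [le_div_iff₀ hg1]; exact hg.le
          exact_mod_cast this
        · isBoundedDefault
    · exact hle c (k5 (above_of_liminf h2 h3))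

end Pool.Agent.Results.MP_926cc3_nt.Threshold
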